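import Pool.Agent.Helper84_Refl.ChamStmts

/-!
# REFL, module CHAM2 (helper3): the reflection group acts freely on the chambers (Tits argument)
-/

set_option linter.all false

namespace Pool.Agent.Refl

open Matrix

/-- CH3: an element of the reflection group which keeps the base point in the chamber is trivial -/
def TitsStmt : Prop := ∀ G : M4, Lat G → ∀ O : R4, Gen G O → ∀ w ∈ Or G,
  act (w : M4) O ∈ KC G O → w = 1

namespace H3

/-- product of the reflections of a list of roots -/
noncomputable def pr (G : M4) (l : List Z4) : M4ˣ := (l.map (reflU G)).prod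

theorem pr_nil (G : M4) : pr G [] = 1 := rfl

theorem pr_cons (G : M4) (e : Z4) (l : List Z4) : pr G (e :: l) = reflU G e * pr G l := by
  simp [pr]

theorem pr_append (G : M4) (l m : List Z4) : pr G (l ++ m) = pr G l * pr G m := by
  simp [pr]

theorem Wall.root {G : M4} {O : R4} {r : Z4} (h : Wall G O r) : IsRoot G r := h.1.root

theorem pr_mem {G : M4} (hG : Lat G) {O : R4} (l : List Z4) (hl : ∀ e ∈ l, Wall G O e) :
    pr G l ∈ OG G := by
  induction l with
  | nil => rw [pr_nil]; exact one_mem _
  | cons e l ih =>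
    rw [pr_cons]
    exact mul_mem (reflU_mem_OG hG (hl e (by simp)).1.root)
      (ih fun x hx => hl x (List.mem_cons_of_mem _ hx))

/-- values at translates of the base point never vanish -/
theorem ne_zero {G : M4} {O : R4} (hO : Gen G O) {r : Z4} (hr : IsRoot G r) {u : M4ˣ}
    (hu : u ∈ OG G) : br G (act (u : M4) O) (up r) ≠ 0 := by
  rw [br_OG_left hu, act_up]
  exact hO.ne _ (hr.map (inv_mem hu))

/-- somewhere along the word the sign changes -/
theorem sign_change {G : M4} (hG : Lat G) {O : R4} (hO : Gen G O) {r : Z4} (hr : IsRoot G r)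
    (b : List Z4) : ∀ u : M4ˣ, u ∈ OG G → (∀ e ∈ b, Wall G O e) →
      0 < br G (act (u : M4) O) (up r) → br G (act ((u * pr G b : M4ˣ) : M4) O) (up r) < 0 →
      ∃ b1 e b2, b = b1 ++ e :: b2 ∧ 0 < br G (act ((u * pr G b1 : M4ˣ) : M4) O) (up r) ∧
        br G (act ((u * pr G b1 * reflU G e : M4ˣ) : M4) O) (up r) < 0 := by
  induction b with
  | nil =>
    intro u hu hb h1 h2
    rw [pr_nil, mul_one] at h2
    exact absurd h1 (not_lt.2 h2.le)
  | cons e b ih =>
    intro u hu hb h1 h2
    have he : Wall G O e := hb e (by simp)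
    by_cases h3 : br G (act ((u * reflU G e : M4ˣ) : M4) O) (up r) < 0
    · refine ⟨[], e, b, rfl, ?_, ?_⟩
      · rw [pr_nil, mul_one]; exact h1
      · rw [pr_nil, mul_one]; exact h3
    · have hue : u * reflU G e ∈ OG G := mul_mem hu (reflU_mem_OG hG he.1.root)
      have h4 : 0 < br G (act ((u * reflU G e : M4ˣ) : M4) O) (up r) :=
        lt_of_le_of_ne (not_lt.1 h3) (ne_zero hO hr hue).symm
      rw [pr_cons, ← mul_assoc] at h2
      obtain ⟨b1, e', b2, hbb, h5, h6⟩ := ih (u * reflU G e) hue
        (fun x hx => hb x (List.mem_cons_of_mem _ hx)) h4 h2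
      refine ⟨e :: b1, e', b2, ?_, ?_, ?_⟩
      · rw [hbb]; rfl
      · rw [pr_cons, ← mul_assoc]; exact h5
      · rw [pr_cons, ← mul_assoc u]; exact h6

/-- the exchange step: a word keeping the base point in the chamber can be shortened -/
theorem shorten (hS : WallSimpleStmt) {G : M4} (hG : Lat G) {O : R4} (hO : Gen G O) (r : Z4)
    (l : List Z4) (hl : ∀ e ∈ r :: l, Wall G O e)
    (hK : act (pr G (r :: l) : M4) O ∈ KC G O) :
    ∃ m : List Z4, m.length < (r :: l).length ∧ (∀ e ∈ m, Wall G O e) ∧
      pr G m = pr G (r :: l) := by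
  have hr : Wall G O r := hl r (by simp)
  have hl' : ∀ e ∈ l, Wall G O e := fun e he => hl e (List.mem_cons_of_mem _ he)
  have hsr : reflU G r ∈ OG G := reflU_mem_OG hG hr.1.root
  have hw : br G (act (pr G (r :: l) : M4) O) (up r) < 0 :=
    lt_of_le_of_ne (hK r hr.1) (ne_zero hO hr.1.root (pr_mem hG _ hl))
  have h1 : 0 < br G (act (reflU G r : M4) O) (up r) := by
    rw [br_OG_left hsr, reflU_inv hr.1.root, act_up, reflU_self hr.1.root, up_neg, br_neg_right]
    have := hr.1.neg
    linarith
  rw [pr_cons] at hw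
  obtain ⟨b1, e, b2, hbb, h5, h6⟩ := sign_change hG hO hr.1.root l (reflU G r) hsr hl' h1 hw
  have hb1 : ∀ x ∈ b1, Wall G O x := fun x hx => hl' x (by rw [hbb]; simp [hx])
  have hb2 : ∀ x ∈ b2, Wall G O x := fun x hx => hl' x (by rw [hbb]; simp [hx])
  have he : Wall G O e := hl' e (by rw [hbb]; simp)
  have hse : reflU G e ∈ OG G := reflU_mem_OG hG he.1.root
  set u : M4ˣ := reflU G r * pr G b1 with hu
  have huO : u ∈ OG G := mul_mem hsr (pr_mem hG _ hb1)
  have hui : u⁻¹ ∈ OG G := inv_mem huO
  set v : Z4 := ((u⁻¹ : M4ˣ) : M4).mulVec r with hv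
  have hvr : IsRoot G v := hr.1.root.map hui
  have h7 : 0 < br G O (up v) := by
    rw [br_OG_left huO, act_up] at h5
    exact h5
  have h8 : br G O (up ((reflU G e : M4).mulVec v)) < 0 := by
    rw [br_OG_left (mul_mem huO hse), _root_.mul_inv_rev, reflU_inv he.1.root, Units.val_mul, act_up,
      ← Matrix.mulVec_mulVec] at h6
    exact h6
  have h9 : PR G O (-v) := ⟨hvr.neg, by rw [up_neg, br_neg_right]; linarith⟩
  have h10 : -v = e := by
    by_contra hne
    have h11 := (hS G hG O hO e (-v) he h9 hne).neg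
    rw [Matrix.mulVec_neg, up_neg, br_neg_right] at h11
    linarith
  have h12 : reflU G e = u⁻¹ * reflU G r * u := by
    rw [← h10, reflU_neg hvr, hv, reflU_conj hr.1.root hui, inv_inv]
  refine ⟨b1 ++ b2, ?_, ?_, ?_⟩
  · rw [hbb]; simp
  · intro x hx
    rcases List.mem_append.1 hx with h | h
    · exact hb1 x h
    · exact hb2 x h
  · have h13 : u * reflU G e = pr G b1 := by
      calc u * reflU G e = u * (u⁻¹ * reflU G r * u) := by rw [h12]
        _ = reflU G r * u := by group
        _ = reflU G r * reflU G r * pr G b1 := by rw [hu, mul_assoc]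
        _ = pr G b1 := by rw [reflU_mul_self hr.1.root, one_mul]
    calc pr G (b1 ++ b2) = pr G b1 * pr G b2 := pr_append G b1 b2
      _ = u * reflU G e * pr G b2 := by rw [h13]
      _ = reflU G r * pr G b1 * reflU G e * pr G b2 := by rw [hu]
      _ = pr G (r :: l) := by
        rw [pr_cons, hbb, pr_append, pr_cons]
        simp only [mul_assoc]

theorem word (hS : WallSimpleStmt) {G : M4} (hG : Lat G) {O : R4} (hO : Gen G O) (n : ℕ) :
    ∀ l : List Z4, l.length ≤ n → (∀ e ∈ l, Wall G O e) → act (pr G l : M4) O ∈ KC G O →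
      pr G l = 1 := by
  induction n with
  | zero =>
    intro l hn hl hK
    have : l = [] := List.length_eq_zero_iff.1 (Nat.le_zero.1 hn)
    rw [this, pr_nil]
  | succ n ih =>
    intro l hn hl hK
    cases l with
    | nil => rw [pr_nil]
    | cons r l =>
      obtain ⟨m, hm, hm2, hm3⟩ := shorten hS hG hO r l hl hK
      rw [← hm3]
      refine ih m ?_ hm2 ?_
      · omega
      · rw [hm3]; exact hK

theorem exists_word {G : M4} {O : R4} {w : M4ˣ}
    (hw : w ∈ Subgroup.closure {g | ∃ r, Wall G O r ∧ g = reflU G r}) :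
    ∃ l : List Z4, (∀ e ∈ l, Wall G O e) ∧ pr G l = w := by
  induction hw using Subgroup.closure_induction with
  | mem x hx =>
    obtain ⟨r, hr, rfl⟩ := hx
    exact ⟨[r], by simpa using hr, by simp [pr]⟩
  | one => exact ⟨[], by simp, rfl⟩
  | mul x y hx hy h1 h2 =>
    obtain ⟨l, hl, rfl⟩ := h1
    obtain ⟨m, hm, rfl⟩ := h2
    refine ⟨l ++ m, ?_, pr_append G l m⟩
    intro e he
    rcases List.mem_append.1 he with h | h
    · exact hl e h
    · exact hm e h
  | inv x hx h1 =>
    obtain ⟨l, hl, rfl⟩ := h1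
    refine ⟨l.reverse, fun e he => hl e (List.mem_reverse.1 he), ?_⟩
    clear hx
    induction l with
    | nil => simp [pr]
    | cons e l ih =>
      have he : Wall G O e := hl e (by simp)
      rw [List.reverse_cons, pr_append, ih fun x hx => hl x (List.mem_cons_of_mem _ hx), pr_cons,
        pr_cons, pr_nil, mul_one, _root_.mul_inv_rev, reflU_inv he.1.root]

/-- module CHAM2 -/
theorem tits (hS : WallSimpleStmt) (hW : WallGenStmt) : TitsStmt := by
  intro G hG O hO w hw hK
  rw [hW G hG O hO] at hw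
  obtain ⟨l, hl, rfl⟩ := exists_word hw
  exact word hS hG hO l.length l le_rfl hl hK

end H3

end Pool.Agent.Refl
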